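import Pool.Agent.Lib.MP_7f581e_U.B.Spec1

/-!
# C41 (MP_7f581e_nt), Block B, module ActB: the action on the specialized field (helper9)
-/

set_option autoImplicit false

namespace MP7U

open Polynomial

theorem bActB : ActBStmt := by
  intro Γ _ _ R T F' L' _ _ _ _ _ ι α θ d m ψ₀ ψ h1 h2 h3 h4 h5 h6 h7 h8 h9 h10
  have hcard : 0 < Nat.card Γ := Nat.card_pos
  have hfin : FiniteDimensional F' L' := Module.finite_of_finrank_pos (by rw [h9]; exact hcard)
  have hcomp : ψ.comp ι = (algebraMap F' L').comp ψ₀ := RingHom.ext fun r => h8 r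
  have hασ : ∀ σ, ((α σ : T ≃+* T) : T →+* T).comp ι = ι := fun σ => RingHom.ext fun r => h1 σ r
  have hev : ∀ (σ : Γ) (G : R[X]), α σ (eval₂ ι θ G) = eval₂ ι (α σ θ) G := by
    intro σ G
    have h := Polynomial.hom_eval₂ G ι ((α σ : T ≃+* T) : T →+* T) θ
    rw [hασ σ] at h
    exact h
  have hψ : ∀ (z : T) (G : R[X]), ψ (eval₂ ι z G) = eval₂ ((algebraMap F' L').comp ψ₀) (ψ z) G := by
    intro z G
    rw [Polynomial.hom_eval₂, hcomp]
  have haev : ∀ z : T, aeval (ψ z) (m.map ψ₀) = ψ (eval₂ ι z m) := by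
    intro z
    rw [hψ, aeval_def, eval₂_map]
  have hroot : ∀ σ, aeval (ψ (α σ θ)) (m.map ψ₀) = 0 := by
    intro σ
    rw [haev, ← hev, h5, map_zero, map_zero]
  have hroot1 : aeval (ψ θ) (m.map ψ₀) = 0 := by
    rw [haev, h5, map_zero]
  have hmin : m.map ψ₀ = minpoly F' (ψ θ) :=
    minpoly.eq_of_irreducible_of_monic h7 hroot1 (h3.map ψ₀)
  have hint : IsIntegral F' (ψ θ) := ⟨m.map ψ₀, h3.map ψ₀, hroot1⟩
  have htop : IntermediateField.adjoin F' {ψ θ} = ⊤ := by
    rw [Field.primitive_element_iff_minpoly_natDegree_eq, ← hmin, h3.natDegree_map, h4, h9]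
  have htop' : Algebra.adjoin F' {ψ θ} = ⊤ := by
    rw [← IntermediateField.adjoin_simple_toSubalgebra_of_isAlgebraic hint.isAlgebraic, htop,
      IntermediateField.top_toSubalgebra]
  obtain ⟨pb, hpb⟩ : ∃ pb : PowerBasis F' L', pb.gen = ψ θ :=
    ⟨PowerBasis.ofAdjoinEqTop hint htop', PowerBasis.ofAdjoinEqTop_gen hint htop'⟩
  have hgen : ∀ σ, aeval (ψ (α σ θ)) (minpoly F' pb.gen) = 0 := by
    intro σ
    rw [hpb, ← hmin]
    exact hroot σ
  let a : Γ → (L' →ₐ[F'] L') := fun σ => pb.lift (ψ (α σ θ)) (hgen σ)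
  have ha : ∀ σ, a σ (ψ θ) = ψ (α σ θ) := by
    intro σ
    have h := pb.lift_gen (ψ (α σ θ)) (hgen σ)
    rw [hpb] at h
    exact h
  have hd : algebraMap F' L' (ψ₀ d) ≠ 0 := by
    rw [Ne, map_eq_zero]
    exact h6
  have key : ∀ σ z, a σ (ψ z) = ψ (α σ z) := by
    intro σ z
    obtain ⟨N, G, hG⟩ := h2 z
    have e1 : algebraMap F' L' (ψ₀ d) ^ N * ψ z = eval₂ ((algebraMap F' L').comp ψ₀) (ψ θ) G := by
      rw [← hψ, ← hG, map_mul, map_pow, h8]
    have e2 : algebraMap F' L' (ψ₀ d) ^ N * a σ (ψ z)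
        = eval₂ ((algebraMap F' L').comp ψ₀) (ψ (α σ θ)) G := by
      have h := congrArg (a σ) e1
      rw [map_mul, map_pow, AlgHom.commutes] at h
      rw [h]
      have h' := Polynomial.hom_eval₂ G ((algebraMap F' L').comp ψ₀) ((a σ : L' →ₐ[F'] L') : L' →+* L')
        (ψ θ)
      have hc : ((a σ : L' →ₐ[F'] L') : L' →+* L').comp ((algebraMap F' L').comp ψ₀)
          = (algebraMap F' L').comp ψ₀ := by
        refine RingHom.ext fun r => ?_
        exact (a σ).commutes (ψ₀ r)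
      rw [hc] at h'
      rw [← ha σ]
      exact h'
    have e3 : algebraMap F' L' (ψ₀ d) ^ N * ψ (α σ z)
        = eval₂ ((algebraMap F' L').comp ψ₀) (ψ (α σ θ)) G := by
      rw [← hψ, ← hev, ← hG, map_mul, map_pow, h1, map_mul, map_pow, h8]
    exact mul_left_cancel₀ (pow_ne_zero N hd) (e2.trans e3.symm)
  have hext : ∀ f g : L' →ₐ[F'] L', f (ψ θ) = g (ψ θ) → f = g := by
    intro f g h
    apply pb.algHom_ext
    rw [hpb]
    exact h
  have hmul : ∀ σ τ, a (σ * τ) = (a σ).comp (a τ) := by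
    intro σ τ
    apply hext
    rw [AlgHom.comp_apply, ha, ha, key, map_mul]
    rfl
  have hone : a 1 = AlgHom.id F' L' := by
    apply hext
    rw [ha, map_one]
    rfl
  let act : Γ →* (L' ≃ₐ[F'] L') :=
    { toFun := fun σ => AlgEquiv.ofAlgHom (a σ) (a σ⁻¹)
        (by rw [← hmul, mul_inv_cancel, hone]) (by rw [← hmul, inv_mul_cancel, hone])
      map_one' := by
        ext x
        show a 1 x = x
        rw [hone]
        rfl
      map_mul' := by
        intro σ τ
        ext x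
        show a (σ * τ) x = a σ (a τ x)
        rw [hmul]
        rfl }
  have hact : ∀ σ x, act σ x = a σ x := fun σ x => rfl
  have hinj : Function.Injective act := by
    rw [injective_iff_map_eq_one]
    intro σ hσ
    by_contra hne
    have e1 : a σ (ψ θ) = ψ θ := by
      rw [← hact, hσ]
      rfl
    rw [ha] at e1
    have e2 : ψ (α σ θ - θ) = 0 := by
      rw [map_sub, e1, sub_self]
    exact ((h10 σ hne).map ψ).ne_zero e2
  have hle : Nat.card (L' ≃ₐ[F'] L') ≤ Nat.card Γ := by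
    rw [← h9, Nat.card_eq_fintype_card]
    exact AlgEquiv.card_le
  have hbij : Function.Bijective act := hinj.bijective_of_nat_card_le hle
  refine ⟨act, hbij, hfin, ?_, fun σ z => key σ z⟩
  apply IsGalois.of_card_aut_eq_finrank
  rw [h9, Nat.card_eq_of_bijective act hbij]

end MP7U
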