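import Pool.Agent.Lib.MP_7f581e_U.B.Spec1

/-!
# C41 (MP_7f581e_nt), Block B: common denominators
-/

set_option autoImplicit false

namespace MP7U

open Polynomial

namespace DenBAux

variable {k : Type} [Field k] {L : Type} [Field L] [Algebra (RatFunc k) L]

theorem strL_comp (k L : Type) [Field k] [Field L] [Algebra (RatFunc k) L] :
    strL k L = (algebraMap (RatFunc k) L).comp (algebraMap k[X] (RatFunc k)) := rfl

/-- Clearing the denominators of a polynomial over `k(X)`. -/
theorem clear (P : (RatFunc k)[X]) : ∃ (b : k[X]) (G : k[X][X]), b ≠ 0 ∧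
    G.map (algebraMap k[X] (RatFunc k)) = C (algebraMap k[X] (RatFunc k) b) * P := by
  obtain ⟨b, hb0, hb⟩ := IsLocalization.integerNormalization_spec (nonZeroDivisors k[X]) P
  refine ⟨b, IsLocalization.integerNormalization (nonZeroDivisors k[X]) P,
    nonZeroDivisors.ne_zero hb0, ?_⟩
  rw [hb, Algebra.smul_def]
  rfl

theorem eval_den (θ : L) (G : k[X][X]) :
    eval₂ (algebraMap (RatFunc k) L) θ (G.map (algebraMap k[X] (RatFunc k))) =
      eval₂ (strL k L) θ G := by
  rw [eval₂_map]

theorem deg_le {θ : L} {m : k[X][X]}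
    (hdvd : ∀ G : k[X][X], eval₂ (strL k L) θ G = 0 → m ∣ G) (P : (RatFunc k)[X]) (hP : P ≠ 0)
    (h : aeval θ P = 0) : m.natDegree ≤ P.natDegree := by
  obtain ⟨b, G, hb, hG⟩ := clear P
  have hb' : algebraMap k[X] (RatFunc k) b ≠ 0 := by
    simpa using hb
  have hG0 : eval₂ (strL k L) θ G = 0 := by
    rw [← eval_den, hG, eval₂_mul, ← aeval_def θ P, h, mul_zero]
  have hne : G ≠ 0 := by
    rintro rfl
    rw [Polynomial.map_zero] at hG
    exact mul_ne_zero (C_ne_zero.mpr hb') hP hG.symm
  have h1 := natDegree_le_of_dvd (hdvd G hG0) hne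
  have h2 : (G.map (algebraMap k[X] (RatFunc k))).natDegree = G.natDegree :=
    natDegree_map_eq_of_injective (IsFractionRing.injective k[X] (RatFunc k)) G
  rw [hG, natDegree_C_mul hb'] at h2
  omega

theorem exists_aeval {θ : L} {m : k[X][X]} [FiniteDimensional (RatFunc k) L]
    (hn : m.natDegree = Module.finrank (RatFunc k) L)
    (hdvd : ∀ G : k[X][X], eval₂ (strL k L) θ G = 0 → m ∣ G) (z : L) :
    ∃ P : (RatFunc k)[X], aeval θ P = z := by
  have hint : IsIntegral (RatFunc k) θ := Algebra.IsIntegral.isIntegral θ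
  have h1 : (minpoly (RatFunc k) θ).natDegree = Module.finrank (RatFunc k) L := by
    refine le_antisymm (minpoly.natDegree_le θ) ?_
    rw [← hn]
    exact deg_le hdvd _ (minpoly.ne_zero hint) (minpoly.aeval _ _)
  have h2 : (IntermediateField.adjoin (RatFunc k) {θ}) = ⊤ := by
    refine IntermediateField.eq_of_le_of_finrank_eq le_top ?_
    rw [IntermediateField.adjoin.finrank hint, h1, IntermediateField.finrank_top']
  have h3 : z ∈ (IntermediateField.adjoin (RatFunc k) {θ}).toSubalgebra := by
    rw [h2]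
    trivial
  rw [IntermediateField.adjoin_simple_toSubalgebra_of_isAlgebraic hint.isAlgebraic,
    Algebra.adjoin_singleton_eq_range_aeval] at h3
  exact h3

end DenBAux

open DenBAux in
theorem bDenB : DenBStmt := by
  intro k _ L _ _ θ m hfd hm hn hdvd J _ z
  classical
  let _ := Fintype.ofFinite J
  choose P hP using fun i => exists_aeval hn hdvd (z i)
  choose b G hb hG using fun i => clear (P i)
  have hc : ∀ i, ∃ c, ∏ j, b j = b i * c := fun i =>
    Finset.dvd_prod_of_mem b (Finset.mem_univ i)
  choose c hc using hc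
  refine ⟨∏ j, b j, fun i => C (c i) * G i, Finset.prod_ne_zero_iff.mpr fun j _ => hb j,
    fun i => ?_⟩
  have h1 : eval₂ (strL k L) θ (G i) = strL k L (b i) * z i := by
    rw [← eval_den, hG i, eval₂_mul, eval₂_C, ← aeval_def θ (P i), hP i]
    rfl
  rw [hc i, eval₂_mul, eval₂_C, h1, map_mul]
  ring

end MP7U
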