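import Pool.Agent.Lib.MP_7f581e_U.B.Spec1

/-!
# C41 (MP_7f581e_nt), Block B: a primitive element with absolutely irreducible equation
-/

set_option autoImplicit false

namespace MP7U

open Polynomial MP7fR

theorem bGenB : GenBStmt := by
  intro k _ _ L _ _ hfd hreg
  let _ : Algebra k L := ((algebraMap (RatFunc k) L).comp (algebraMap k (RatFunc k))).toAlgebra
  have htow : IsScalarTower k (RatFunc k) L := IsScalarTower.of_algebraMap_eq (fun _ => rfl)
  let _ : Algebra k[X] L :=
    ((algebraMap (RatFunc k) L).comp (algebraMap k[X] (RatFunc k))).toAlgebra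
  have htow' : IsScalarTower k[X] (RatFunc k) L := IsScalarTower.of_algebraMap_eq (fun _ => rfl)
  have hk : ∀ y : L, IsIntegral k y → ∃ c : k, algebraMap k L c = y := by
    rintro y ⟨g, hg, hgy⟩
    exact hreg y ⟨g, hg.ne_zero, hgy⟩
  obtain ⟨pb, hint⟩ := exists_integral_powerBasis (R := k[X]) (F := RatFunc k) (L := L)
  have hmin : minpoly (RatFunc k) pb.gen =
      (minpoly k[X] pb.gen).map (algebraMap k[X] (RatFunc k)) :=
    minpoly.isIntegrallyClosed_eq_field_fractions' (RatFunc k) hint
  have hmonic := minpoly.monic hint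
  refine ⟨pb.gen, minpoly k[X] pb.gen, hmonic, ?_, ?_, ?_, ?_⟩
  · rw [pb.finrank, ← pb.natDegree_minpoly, hmin,
      natDegree_map_eq_of_injective (IsFractionRing.injective k[X] (RatFunc k))]
  · exact minpoly.aeval k[X] pb.gen
  · intro G hG
    have h1 : minpoly (RatFunc k) pb.gen ∣ G.map (algebraMap k[X] (RatFunc k)) := by
      refine minpoly.dvd _ _ ?_
      rw [aeval_map_algebraMap]
      exact hG
    rw [hmin] at h1
    exact (map_dvd_map _ (IsFractionRing.injective k[X] (RatFunc k)) hmonic).mp h1
  · intro K₁ _ φ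
    let _ : Algebra k K₁ := φ.toAlgebra
    have h1 := irreducible_map (K := K₁) hk pb hint
    exact ((hmonic.map _).irreducible_iff_irreducible_map_fraction_map (K := RatFunc K₁)).mp h1

end MP7U
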