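import Pool.Agent.Lib.MP_7f581e_U.B.Spec1

/-!
# C41, Block B: IrrB, absolute irreducibility is preserved by specialization
-/

set_option autoImplicit false

namespace MP7U

open Polynomial

namespace IrrBM

/-- a polynomial in two variables with given coefficients -/
theorem exists_poly2 {R : Type} [CommRing R] (r D : ℕ) (c : ℕ → ℕ → R)
    (h1 : ∀ a b, r < a → c a b = 0) (h2 : ∀ a b, D < b → c a b = 0) :
    ∃ G : R[X][X], ∀ a b, (G.coeff a).coeff b = c a b := by
  refine ⟨∑ a ∈ Finset.range (r + 1), monomial a (∑ b ∈ Finset.range (D + 1), monomial b (c a b)),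
    fun a b => ?_⟩
  rw [finset_sum_coeff]
  simp only [coeff_monomial]
  rw [Finset.sum_ite_eq' (Finset.range (r + 1)) a]
  split_ifs with ha
  · rw [finset_sum_coeff]
    simp only [coeff_monomial]
    rw [Finset.sum_ite_eq' (Finset.range (D + 1)) b]
    split_ifs with hb
    · rfl
    · rw [Finset.mem_range, not_lt] at hb
      exact (h2 a b (by omega)).symm
  · rw [Finset.mem_range, not_lt] at ha
    rw [h1 a b (by omega), coeff_zero]

/-- coefficients of a product -/
theorem coeff2_mul {R : Type} [CommRing R] (G H : R[X][X]) (i j : ℕ) :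
    ((G * H).coeff i).coeff j = ∑ p ∈ Finset.HasAntidiagonal.antidiagonal i,
      ∑ q ∈ Finset.HasAntidiagonal.antidiagonal j,
      (G.coeff p.1).coeff q.1 * (H.coeff p.2).coeff q.2 := by
  rw [coeff_mul, finset_sum_coeff]
  refine Finset.sum_congr rfl fun p _ => ?_
  rw [coeff_mul]

theorem monic_of_coeff2 {R : Type} [CommRing R] [Nontrivial R] (G : R[X][X]) (r : ℕ)
    (h1 : ∀ a b, r < a → (G.coeff a).coeff b = 0)
    (h2 : ∀ b, (G.coeff r).coeff b = (1 : R[X]).coeff b) : G.Monic ∧ G.natDegree = r := by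
  have h3 : G.natDegree ≤ r := by
    rw [natDegree_le_iff_coeff_eq_zero]
    intro a ha
    ext b
    rw [h1 a b ha, coeff_zero]
  have h4 : G.coeff r = 1 := by
    ext b
    exact h2 b
  exact ⟨monic_of_natDegree_le_of_coeff_eq_one r h3 h4,
    natDegree_eq_of_le_of_coeff_ne_zero h3 (by rw [h4]; exact one_ne_zero)⟩

section

variable {K : Type} [Field K]

/-- a factorization of type `r` of the image of `f` under a homomorphism of `cl (S ∪ Sf)` -/
structure Dat (f : K[X][X]) (Sf : Finset K) (n D r : ℕ) (S : Finset K) [DecidableEq K]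
    (hSf : ∀ S : Finset K, ∀ i j, (f.coeff i).coeff j ∈ cl (S ∪ Sf)) where
  kk : Type
  fld : Field kk
  φ' : cl (S ∪ Sf) →+* kk
  g : kk[X][X]
  h : kk[X][X]
  gm : g.Monic
  hm : h.Monic
  gd : g.natDegree = r
  hd : h.natDegree = n - r
  gD : ∀ i, (g.coeff i).natDegree ≤ D
  hD : ∀ i, (h.coeff i).natDegree ≤ D
  eq : ∀ i j, ((g * h).coeff i).coeff j = φ' ⟨(f.coeff i).coeff j, hSf S i j⟩

/-- restriction -/
theorem Dat.res {f : K[X][X]} {Sf : Finset K} {n D r : ℕ} {S S' : Finset K} [DecidableEq K]
    {hSf : ∀ S : Finset K, ∀ i j, (f.coeff i).coeff j ∈ cl (S ∪ Sf)} (hS : S ⊆ S')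
    (d : Dat f Sf n D r S' hSf) : Nonempty (Dat f Sf n D r S hSf) := by
  letI := d.fld
  have hle : cl (S ∪ Sf) ≤ cl (S' ∪ Sf) :=
    Subring.closure_mono (by exact_mod_cast Finset.union_subset_union_left hS)
  exact ⟨{ kk := d.kk, fld := d.fld, φ' := d.φ'.comp (Subring.inclusion hle), g := d.g, h := d.h,
           gm := d.gm, hm := d.hm, gd := d.gd, hd := d.hd, gD := d.gD, hD := d.hD,
           eq := fun i j => by rw [d.eq i j]; rfl }⟩

/-- the same type for all `S` -/
theorem exists_type {f : K[X][X]} {Sf : Finset K} {n D : ℕ} [DecidableEq K]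
    {hSf : ∀ S : Finset K, ∀ i j, (f.coeff i).coeff j ∈ cl (S ∪ Sf)}
    (h : ∀ S : Finset K, ∃ r, 1 ≤ r ∧ r < n ∧ Nonempty (Dat f Sf n D r S hSf)) :
    ∃ r, 1 ≤ r ∧ r < n ∧ ∀ S, Nonempty (Dat f Sf n D r S hSf) := by
  by_contra hcon
  push Not at hcon
  have h1 : ∀ r, ∃ S : Finset K, 1 ≤ r → r < n → IsEmpty (Dat f Sf n D r S hSf) := by
    intro r
    by_cases hr : 1 ≤ r ∧ r < n
    · obtain ⟨S, hS⟩ := hcon r hr.1 hr.2
      exact ⟨S, fun _ _ => hS⟩
    · exact ⟨∅, fun a b => (hr ⟨a, b⟩).elim⟩
  choose T hT using h1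
  obtain ⟨r, hr1, hr2, ⟨d⟩⟩ := h ((Finset.range n).biUnion T)
  obtain ⟨d'⟩ := d.res (Finset.subset_biUnion_of_mem T (Finset.mem_range.2 hr2))
  exact (hT r hr1 hr2).false d'

end

end IrrBM

open IrrBM in
theorem bIrrB (h1 : GauBStmt) (h2 : LimBStmt) : IrrBStmt := by
  intro K _ f hf hn habs
  classical
  -- the coefficients
  set Sf : Finset K := f.support.biUnion
    (fun i => (f.coeff i).support.image fun j => (f.coeff i).coeff j) with hSfdef
  have hcoef : ∀ i j, (f.coeff i).coeff j ∈ cl Sf := by
    intro i j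
    by_cases h0 : (f.coeff i).coeff j = 0
    · rw [h0]; exact zero_mem _
    · apply Subring.subset_closure
      have hi : f.coeff i ≠ 0 := by
        intro h; rw [h, coeff_zero] at h0; exact h0 rfl
      exact_mod_cast Finset.mem_biUnion.2 ⟨i, mem_support_iff.2 hi,
        Finset.mem_image.2 ⟨j, mem_support_iff.2 h0, rfl⟩⟩
  have hSf : ∀ S : Finset K, ∀ i j, (f.coeff i).coeff j ∈ cl (S ∪ Sf) := fun S i j =>
    Subring.closure_mono (by exact_mod_cast Finset.subset_union_right) (hcoef i j)
  set D : ℕ := f.support.sup fun i => (f.coeff i).natDegree with hD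
  have hDi : ∀ i, (f.coeff i).natDegree ≤ D := by
    intro i
    by_cases hi : f.coeff i = 0
    · rw [hi, natDegree_zero]; exact Nat.zero_le _
    · exact Finset.le_sup (f := fun i => (f.coeff i).natDegree) (mem_support_iff.2 hi)
  set n := f.natDegree with hndef
  by_contra hcon
  push Not at hcon
  -- the factorizations
  have hdat : ∀ S : Finset K, ∃ r, 1 ≤ r ∧ r < n ∧ Nonempty (Dat f Sf n D r S hSf) := by
    intro S
    obtain ⟨S', hS', k', _, φ, f₀, hf₀, hirr⟩ := hcon (S ∪ Sf) (hSf S)
    have hinj : Function.Injective (mapRingHom (cl S').subtype) :=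
      map_injective _ (Subring.subtype_injective _)
    have hf₀m : f₀.Monic := by
      apply monic_of_injective hinj
      rw [hf₀]; exact hf
    have hcf : ∀ i j, (((f₀.coeff i).coeff j : cl S') : K) = (f.coeff i).coeff j := by
      intro i j
      rw [← hf₀, coeff_map, coe_mapRingHom, coeff_map]
      rfl
    obtain ⟨r, g, h, hr1, hr2, hg, hh, hgd, hhd, hgD, hhD, hgh⟩ :=
      h1 k' (f₀.map (mapRingHom φ)) n D (hf₀m.map _) (by
        rw [hf₀m.natDegree_map, hndef, ← hf₀, natDegree_map_eq_of_injective hinj]) hn (by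
        intro i
        rw [coeff_map, coe_mapRingHom]
        refine (natDegree_map_le).trans ?_
        refine le_trans (le_of_eq ?_) (hDi i)
        rw [← hf₀, coeff_map, coe_mapRingHom,
          natDegree_map_eq_of_injective (Subring.subtype_injective _)]) hirr
    refine ⟨r, hr1, hr2, ?_⟩
    have hle : cl (S ∪ Sf) ≤ cl S' := Subring.closure_mono (by exact_mod_cast hS')
    refine ⟨{ kk := k', fld := inferInstance, φ' := φ.comp (Subring.inclusion hle), g := g, h := h,
              gm := hg, hm := hh, gd := hgd, hd := hhd, gD := hgD, hD := hhD, eq := ?_ }⟩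
    intro i j
    rw [← hgh, coeff_map, coe_mapRingHom, coeff_map, RingHom.comp_apply]
    congr 1
    apply Subtype.ext
    rw [hcf]
    rfl
  obtain ⟨r, hr1, hr2, hall⟩ := exists_type hdat
  have d : ∀ S, Dat f Sf n D r S hSf := fun S => (hall S).some
  letI : ∀ S, Field (d S).kk := fun S => (d S).fld
  have hle : ∀ S : Finset K, cl S ≤ cl (S ∪ Sf) := fun S =>
    Subring.closure_mono (by exact_mod_cast Finset.subset_union_left)
  obtain ⟨ks, _, Φ, π, hπ1, hπ2⟩ := h2 K (fun S => (d S).kk)
    (fun S => (d S).φ'.comp (Subring.inclusion (hle S)))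
  obtain ⟨G, hG⟩ := exists_poly2 (R := ks) r D
    (fun a b => π fun S => (((d S).g).coeff a).coeff b)
    (fun a b ha => by
      have h3 : (fun S => (((d S).g).coeff a).coeff b) = (0 : ∀ S, (d S).kk) := by
        funext S
        rw [show ((d S).g).coeff a = 0 from
          coeff_eq_zero_of_natDegree_lt (by rw [(d S).gd]; exact ha), coeff_zero]
        rfl
      show π _ = 0
      rw [h3, map_zero])
    (fun a b hb => by
      have h3 : (fun S => (((d S).g).coeff a).coeff b) = (0 : ∀ S, (d S).kk) := by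
        funext S
        rw [coeff_eq_zero_of_natDegree_lt (lt_of_le_of_lt ((d S).gD a) hb)]
        rfl
      show π _ = 0
      rw [h3, map_zero])
  obtain ⟨H, hH⟩ := exists_poly2 (R := ks) (n - r) D
    (fun a b => π fun S => (((d S).h).coeff a).coeff b)
    (fun a b ha => by
      have h3 : (fun S => (((d S).h).coeff a).coeff b) = (0 : ∀ S, (d S).kk) := by
        funext S
        rw [show ((d S).h).coeff a = 0 from
          coeff_eq_zero_of_natDegree_lt (by rw [(d S).hd]; exact ha), coeff_zero]
        rfl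
      show π _ = 0
      rw [h3, map_zero])
    (fun a b hb => by
      have h3 : (fun S => (((d S).h).coeff a).coeff b) = (0 : ∀ S, (d S).kk) := by
        funext S
        rw [coeff_eq_zero_of_natDegree_lt (lt_of_le_of_lt ((d S).hD a) hb)]
        rfl
      show π _ = 0
      rw [h3, map_zero])
  have hfGH : f.map (mapRingHom Φ) = G * H := by
    ext i j
    rw [coeff_map, coe_mapRingHom, coeff_map,
      hπ2 ((f.coeff i).coeff j) (fun S => (d S).φ' ⟨(f.coeff i).coeff j, hSf S i j⟩)
        ⟨∅, fun S _ _ => rfl⟩, coeff2_mul]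
    simp_rw [hG, hH, ← map_mul, ← map_sum]
    congr 1
    funext S
    rw [← (d S).eq i j, coeff2_mul]
    simp only [Finset.sum_apply, Pi.mul_apply]
  have hone : ∀ b : ℕ, π (fun S => ((1 : (d S).kk[X])).coeff b) = (1 : ks[X]).coeff b := by
    intro b
    by_cases hb : b = 0
    · subst hb
      have h3 : (fun S => ((1 : (d S).kk[X])).coeff 0) = (1 : ∀ S, (d S).kk) := by
        funext S
        rw [coeff_one_zero]
        rfl
      rw [h3, map_one, coeff_one_zero]
    · have h3 : (fun S => ((1 : (d S).kk[X])).coeff b) = (0 : ∀ S, (d S).kk) := by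
        funext S
        rw [coeff_one, if_neg hb]
        rfl
      rw [h3, map_zero, coeff_one, if_neg hb]
  have hGm : G.Monic ∧ G.natDegree = r := by
    apply monic_of_coeff2
    · intro a b ha
      rw [hG]
      have h3 : (fun S => (((d S).g).coeff a).coeff b) = (0 : ∀ S, (d S).kk) := by
        funext S
        rw [show ((d S).g).coeff a = 0 from
          coeff_eq_zero_of_natDegree_lt (by rw [(d S).gd]; exact ha), coeff_zero]
        rfl
      rw [h3, map_zero]
    · intro b
      rw [hG, ← hone b]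
      congr 1
      funext S
      have h3 : ((d S).g).coeff r = 1 := by
        have h4 := (d S).gm.coeff_natDegree
        rw [(d S).gd] at h4
        exact h4
      rw [h3]
  have hHm : H.Monic ∧ H.natDegree = n - r := by
    apply monic_of_coeff2
    · intro a b ha
      rw [hH]
      have h3 : (fun S => (((d S).h).coeff a).coeff b) = (0 : ∀ S, (d S).kk) := by
        funext S
        rw [show ((d S).h).coeff a = 0 from
          coeff_eq_zero_of_natDegree_lt (by rw [(d S).hd]; exact ha), coeff_zero]
        rfl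
      rw [h3, map_zero]
    · intro b
      rw [hH, ← hone b]
      congr 1
      funext S
      have h3 : ((d S).h).coeff (n - r) = 1 := by
        have h4 := (d S).hm.coeff_natDegree
        rw [(d S).hd] at h4
        exact h4
      rw [h3]
  have hirr := habs ks Φ
  rw [IrrR, hfGH, Polynomial.map_mul] at hirr
  rcases hirr.isUnit_or_isUnit rfl with hu | hu
  · have h3 := natDegree_eq_zero_of_isUnit hu
    rw [hGm.1.natDegree_map, hGm.2] at h3
    omega
  · have h3 := natDegree_eq_zero_of_isUnit hu
    rw [hHm.1.natDegree_map, hHm.2] at h3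
    omega

end MP7U
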