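import Pool.Agent.Lib.MP_7f581e_U.B.Spec1

/-!
# C41 (MP_7f581e_nt), Block B: limits of homomorphisms from finitely generated subrings
-/

set_option autoImplicit false

namespace MP7U

open Polynomial

namespace LimBAux

variable {K : Type} {kk : Finset K → Type} [∀ S, Field (kk S)]

/-- The ideal of the families which vanish eventually. -/
def evI (kk : Finset K → Type) [∀ S, Field (kk S)] : Ideal (∀ S, kk S) where
  carrier := {x | ∃ S₀, ∀ S, S₀ ⊆ S → x S = 0}
  add_mem' := by
    classical
    rintro a b ⟨S, hS⟩ ⟨S', hS'⟩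
    refine ⟨S ∪ S', fun U hU => ?_⟩
    rw [Pi.add_apply, hS U (Finset.subset_union_left.trans hU),
      hS' U (Finset.subset_union_right.trans hU), add_zero]
  zero_mem' := ⟨∅, fun _ _ => rfl⟩
  smul_mem' := by
    rintro c x ⟨S, hS⟩
    refine ⟨S, fun U hU => ?_⟩
    rw [smul_eq_mul, Pi.mul_apply, hS U hU, mul_zero]

theorem evI_ne_top : evI kk ≠ ⊤ := by
  intro h
  have h1 : (1 : ∀ S, kk S) ∈ evI kk := h ▸ Submodule.mem_top
  obtain ⟨S, hS⟩ := h1
  exact one_ne_zero (hS S (Finset.Subset.refl S))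

end LimBAux

open LimBAux in
theorem bLimB : LimBStmt := by
  intro K _ kk _ φ
  classical
  obtain ⟨M, hM, hIM⟩ := (evI kk).exists_le_maximal evI_ne_top
  have hev : ∀ x y : ∀ S, kk S, (∃ S₀, ∀ S, S₀ ⊆ S → x S = y S) →
      Ideal.Quotient.mk M x = Ideal.Quotient.mk M y := by
    rintro x y ⟨S₀, h⟩
    rw [Ideal.Quotient.eq]
    refine hIM ⟨S₀, fun S hS => ?_⟩
    rw [Pi.sub_apply, h S hS, sub_self]
  let r : K → ∀ S, kk S := fun x S => if h : x ∈ cl S then φ S ⟨x, h⟩ else 0
  have hr : ∀ (x : K) (S : Finset K) (h : x ∈ cl S), r x S = φ S ⟨x, h⟩ :=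
    fun x S h => dif_pos h
  have hmem : ∀ (x : K) (S : Finset K), x ∈ S → x ∈ cl S :=
    fun x S h => Subring.subset_closure (Finset.mem_coe.mpr h)
  have hmem' : ∀ (x : K) (S : Finset K), {x} ⊆ S → x ∈ cl S :=
    fun x S h => hmem x S (h (Finset.mem_singleton_self x))
  let Φ : K →+* (∀ S, kk S) ⧸ M :=
    { toFun := fun x => Ideal.Quotient.mk M (r x)
      map_one' := by
        rw [← map_one (Ideal.Quotient.mk M)]
        refine hev _ _ ⟨∅, fun S _ => ?_⟩
        rw [hr 1 S (one_mem _)]
        exact map_one (φ S)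
      map_zero' := by
        rw [← map_zero (Ideal.Quotient.mk M)]
        refine hev _ _ ⟨∅, fun S _ => ?_⟩
        rw [hr 0 S (zero_mem _)]
        exact map_zero (φ S)
      map_mul' := fun x y => by
        rw [← map_mul]
        refine hev _ _ ⟨{x} ∪ {y}, fun S hS => ?_⟩
        have hx := hmem' x S (Finset.subset_union_left.trans hS)
        have hy := hmem' y S (Finset.subset_union_right.trans hS)
        rw [Pi.mul_apply, hr x S hx, hr y S hy, hr (x * y) S (mul_mem hx hy), ← map_mul]
        rfl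
      map_add' := fun x y => by
        rw [← map_add]
        refine hev _ _ ⟨{x} ∪ {y}, fun S hS => ?_⟩
        have hx := hmem' x S (Finset.subset_union_left.trans hS)
        have hy := hmem' y S (Finset.subset_union_right.trans hS)
        rw [Pi.add_apply, hr x S hx, hr y S hy, hr (x + y) S (add_mem hx hy), ← map_add]
        rfl }
  refine ⟨(∀ S, kk S) ⧸ M, Ideal.Quotient.field M, Φ, Ideal.Quotient.mk M, hev, ?_⟩
  rintro x y ⟨S₀, h⟩
  refine hev _ _ ⟨S₀ ∪ {x}, fun S hS => ?_⟩
  have hx := hmem' x S (Finset.subset_union_right.trans hS)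
  rw [h S (Finset.subset_union_left.trans hS) hx]
  exact hr x S hx

end MP7U
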