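import Pool.Agent.Lib.MP_7f581e_U.B.Spec1

/-!
# C41 (MP_7f581e_nt), Block B: absolute irreducibility implies regularity
-/

set_option autoImplicit false

namespace MP7U

open Polynomial MP7fR

namespace RegCAux

/-- Elements of a simple extension are polynomials of small degree in the generator. -/
theorem exists_aeval {F L : Type} [Field F] [Field L] [Algebra F L] [FiniteDimensional F L]
    {θ : L} (h1 : (minpoly F θ).natDegree = Module.finrank F L) (z : L) :
    ∃ P : F[X], aeval θ P = z ∧ P.degree < (minpoly F θ).degree := by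
  have hint : IsIntegral F θ := Algebra.IsIntegral.isIntegral θ
  have h2 : (IntermediateField.adjoin F {θ}) = ⊤ := by
    refine IntermediateField.eq_of_le_of_finrank_eq le_top ?_
    rw [IntermediateField.adjoin.finrank hint, h1, IntermediateField.finrank_top']
  have h3 : z ∈ (IntermediateField.adjoin F {θ}).toSubalgebra := by
    rw [h2]
    trivial
  rw [IntermediateField.adjoin_simple_toSubalgebra_of_isAlgebraic hint.isAlgebraic,
    Algebra.adjoin_singleton_eq_range_aeval] at h3
  obtain ⟨P, hP⟩ := h3
  refine ⟨P %ₘ minpoly F θ, ?_, degree_modByMonic_lt _ (minpoly.monic hint)⟩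
  rw [aeval_modByMonic_eq_self_of_root (minpoly.aeval F θ)]
  exact hP

end RegCAux

open RegCAux in
theorem bRegC : RegCStmt := by
  intro k _ L _ _ θ m hfd hm hn hθ habs x hx
  obtain ⟨f, hf0, hfx⟩ := hx
  let _ : Algebra k L := ((algebraMap (RatFunc k) L).comp (algebraMap k (RatFunc k))).toAlgebra
  have htow : IsScalarTower k (RatFunc k) L := IsScalarTower.of_algebraMap_eq (fun _ => rfl)
  have hxalg : IsAlgebraic k x := ⟨f, hf0, hfx⟩
  -- the minimal polynomial over `k(X)`
  have hirr0 : Irreducible (m.map (algebraMap k[X] (RatFunc k))) := by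
    have h := habs k (RingHom.id k)
    unfold IrrR at h
    rwa [mapRingHom_id, Polynomial.map_id] at h
  have hmin0 : m.map (algebraMap k[X] (RatFunc k)) = minpoly (RatFunc k) θ := by
    refine minpoly.eq_of_irreducible_of_monic hirr0 ?_ (hm.map _)
    rw [aeval_def, eval₂_map]
    exact hθ
  have hdeg0 : (minpoly (RatFunc k) θ).natDegree = Module.finrank (RatFunc k) L := by
    rw [← hmin0, hm.natDegree_map, hn]
  obtain ⟨P, hP, hPdeg⟩ := exists_aeval hdeg0 x
  -- the algebraic closure of `k` in `L`
  let K₁ := algebraicClosure k L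
  have hT : Transcendental k (algebraMap (RatFunc k) L RatFunc.X) :=
    (transcendental_algebraMap_iff (algebraMap (RatFunc k) L).injective).mpr
      RatFunc.transcendental_X
  have hT' : Transcendental K₁ (algebraMap (RatFunc k) L RatFunc.X) := hT.extendScalars K₁
  have hinj : Function.Injective
      (aeval (algebraMap (RatFunc k) L RatFunc.X) : K₁[X] →ₐ[K₁] L).toRingHom :=
    transcendental_iff_injective.mp hT'
  let j : RatFunc K₁ →+* L := IsFractionRing.lift (A := K₁[X]) (K := RatFunc K₁) hinj
  have hj : ∀ p : K₁[X], j (algebraMap K₁[X] (RatFunc K₁) p) =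
      aeval (algebraMap (RatFunc k) L RatFunc.X) p :=
    fun p => IsFractionRing.lift_algebraMap hinj p
  have hjtau : j.comp (tau k K₁) = algebraMap (RatFunc k) L := by
    apply IsLocalization.ringHom_ext (nonZeroDivisors k[X])
    refine RingHom.ext fun p => ?_
    rw [RingHom.comp_apply, RingHom.comp_apply, tau_algebraMap, hj, aeval_map_algebraMap,
      RingHom.comp_apply]
    have h1 : aeval (algebraMap (RatFunc k) L RatFunc.X) p =
        algebraMap (RatFunc k) L (aeval (RatFunc.X : RatFunc k) p) :=
      aeval_algebraMap_apply L (RatFunc.X : RatFunc k) p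
    rw [h1, ← RatFunc.algebraMap_X, aeval_algebraMap_apply, aeval_X_left_apply]
  let _ : Algebra (RatFunc K₁) L := j.toAlgebra
  have hirr1 : Irreducible ((m.map (mapRingHom (algebraMap k K₁))).map
      (algebraMap K₁[X] (RatFunc K₁))) := habs K₁ (algebraMap k K₁)
  have hcomp : (m.map (mapRingHom (algebraMap k K₁))).map (algebraMap K₁[X] (RatFunc K₁)) =
      (m.map (algebraMap k[X] (RatFunc k))).map (tau k K₁) := by
    rw [Polynomial.map_map, Polynomial.map_map]
    congr 1
    refine RingHom.ext fun p => ?_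
    rw [RingHom.comp_apply, RingHom.comp_apply, tau_algebraMap]
    rfl
  have haev : ∀ Q : (RatFunc k)[X], aeval θ (Q.map (tau k K₁)) = aeval θ Q := by
    intro Q
    rw [aeval_def, eval₂_map, aeval_def]
    exact congrArg (fun t => eval₂ t θ Q) hjtau
  have hmin1 : (m.map (mapRingHom (algebraMap k K₁))).map (algebraMap K₁[X] (RatFunc K₁)) =
      minpoly (RatFunc K₁) θ := by
    refine minpoly.eq_of_irreducible_of_monic hirr1 ?_ ((hm.map _).map _)
    rw [hcomp, haev, hmin0]
    exact minpoly.aeval _ _
  let x₁ : K₁ := ⟨x, mem_algebraicClosure_iff.mpr hxalg⟩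
  have hx₁ : j (algebraMap K₁[X] (RatFunc K₁) (C x₁)) = x := by
    rw [hj, aeval_C]
    rfl
  have hdvd : minpoly (RatFunc K₁) θ ∣
      P.map (tau k K₁) - C (algebraMap K₁[X] (RatFunc K₁) (C x₁)) := by
    refine minpoly.dvd _ _ ?_
    rw [map_sub, haev, hP, aeval_C]
    exact sub_eq_zero.mpr hx₁.symm
  have hdlt : (P.map (tau k K₁) - C (algebraMap K₁[X] (RatFunc K₁) (C x₁))).degree <
      (minpoly (RatFunc K₁) θ).degree := by
    have h1 : (minpoly (RatFunc K₁) θ).degree = (minpoly (RatFunc k) θ).degree := by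
      rw [← hmin1, ← hmin0, hcomp, degree_map]
    refine lt_of_le_of_lt (degree_sub_le _ _) (max_lt ?_ ?_)
    · rw [h1, degree_map]
      exact hPdeg
    · refine lt_of_le_of_lt degree_C_le ?_
      rw [← hmin1]
      exact degree_pos_of_irreducible hirr1
  have hzero := eq_zero_of_dvd_of_degree_lt hdvd hdlt
  have hPC : P = C (P.coeff 0) := by
    ext i
    rw [coeff_C]
    split_ifs with hi
    · rw [hi]
    · apply (tau k K₁).injective
      rw [map_zero, ← coeff_map, sub_eq_zero.mp hzero, coeff_C, if_neg hi]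
  have hxr : algebraMap (RatFunc k) L (P.coeff 0) = x := by
    rw [← hP]
    conv_rhs => rw [hPC]
    rw [aeval_C]
  have hralg : IsAlgebraic k (P.coeff 0) := by
    rw [← isAlgebraic_algebraMap_iff (algebraMap (RatFunc k) L).injective, hxr]
    exact hxalg
  by_cases hC : ∃ c, P.coeff 0 = RatFunc.C c
  · obtain ⟨c, hc⟩ := hC
    refine ⟨c, ?_⟩
    rw [← hxr, hc, RatFunc.algebraMap_eq_C]
  · exact absurd hralg (RatFunc.transcendental_of_ne_C _ hC)

end MP7U
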