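import Pool.Agent.Lib.MP_7f581e_U.B.Spec1

/-!
# C41 (MP_7f581e_nt), Block B: specialization, assembly (`SpB`)
-/

set_option autoImplicit false

namespace MP7U

open Polynomial

namespace SpBM

/-- Lift of a polynomial with coefficients in a subring. -/
theorem lift1 {K : Type} [Field K] (A : Subring K) (p : K[X]) (h : ∀ i, p.coeff i ∈ A) :
    ∃ p₀ : A[X], p₀.map A.subtype = p := by
  have h1 : p ∈ Polynomial.lifts A.subtype := by
    rw [Polynomial.lifts_iff_coeff_lifts]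
    intro i
    exact ⟨⟨p.coeff i, h i⟩, rfl⟩
  exact h1

theorem lift2 {K : Type} [Field K] (A : Subring K) (P : K[X][X])
    (h : ∀ i j, (P.coeff i).coeff j ∈ A) :
    ∃ P₀ : A[X][X], P₀.map (mapRingHom A.subtype) = P := by
  have h1 : P ∈ Polynomial.lifts (mapRingHom A.subtype) := by
    rw [Polynomial.lifts_iff_coeff_lifts]
    intro i
    obtain ⟨p₀, hp⟩ := lift1 A (P.coeff i) (h i)
    exact ⟨p₀, hp⟩
  exact h1

/-- The coefficients of a polynomial in two variables form a finite set. -/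
theorem coeffs_fin {K : Type} [Field K] (P : K[X][X]) :
    ∃ S : Finset K, ∀ i j, (P.coeff i).coeff j = 0 ∨ (P.coeff i).coeff j ∈ S := by
  classical
  refine ⟨P.support.biUnion fun i => (P.coeff i).support.image fun j => (P.coeff i).coeff j, ?_⟩
  intro i j
  by_cases h : (P.coeff i).coeff j = 0
  · exact Or.inl h
  · right
    rw [Finset.mem_biUnion]
    refine ⟨i, ?_, ?_⟩
    · rw [mem_support_iff]
      intro h0
      exact h (by rw [h0, coeff_zero])
    · rw [Finset.mem_image]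
      exact ⟨j, by rw [mem_support_iff]; exact h, rfl⟩

theorem cl_mono {K : Type} [Field K] {S S' : Finset K} (h : S ⊆ S') : cl S ≤ cl S' :=
  Subring.closure_mono (by exact_mod_cast h)

theorem mem_cl_of {K : Type} [Field K] {S : Finset K} {x : K} (h : x = 0 ∨ x ∈ S) : x ∈ cl S := by
  rcases h with rfl | h
  · exact zero_mem _
  · exact Subring.subset_closure (by exact_mod_cast h)

/-- The structure map of the coefficient ring `A[X]`. -/
noncomputable abbrev iA {K : Type} [Field K] (A : Subring K) (L : Type) [Field L]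
    [Algebra (RatFunc K) L] : A[X] →+* L := (strL K L).comp (mapRingHom A.subtype)

section core

variable {K : Type} [Field K] {Γ : Type} [Group Γ] {L : Type} [Field L] [Algebra (RatFunc K) L]
  (act : Γ →* (L ≃ₐ[RatFunc K] L)) (A : Subring K) (θ : L) (d₀ : A[X])

theorem act_iA (σ : Γ) (r : A[X]) : act σ (iA A L r) = iA A L r := by
  show act σ (algebraMap (RatFunc K) L _) = algebraMap (RatFunc K) L _
  exact (act σ).commutes _

theorem iA_mem (r : A[X]) : iA A L r ∈ TT (iA A L) θ d₀ := ⟨0, C r, by simp⟩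

theorem th_mem : θ ∈ TT (iA A L) θ d₀ := ⟨0, X, by simp⟩

theorem mem_of_mul (z : L) (N : ℕ) (h : iA A L d₀ ^ N * z ∈ TT (iA A L) θ d₀) :
    z ∈ TT (iA A L) θ d₀ := by
  obtain ⟨M, G, hG⟩ := h
  exact ⟨M + N, G, by rw [pow_add, mul_assoc]; exact hG⟩

theorem mem_of_one (z : L) (G : A[X][X]) (h : iA A L d₀ * z = eval₂ (iA A L) θ G) :
    z ∈ TT (iA A L) θ d₀ := ⟨1, G, by rw [pow_one]; exact h⟩

theorem eval_mem {w : L} (hw : w ∈ TT (iA A L) θ d₀) (G : A[X][X]) :
    eval₂ (iA A L) w G ∈ TT (iA A L) θ d₀ := by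
  rw [eval₂_eq_sum_range]
  exact sum_mem fun i _ => mul_mem (iA_mem A θ d₀ _) (pow_mem hw i)

variable {act A θ d₀}

theorem act_mem (h : ∀ σ, act σ θ ∈ TT (iA A L) θ d₀) (σ : Γ) {z : L}
    (hz : z ∈ TT (iA A L) θ d₀) : act σ z ∈ TT (iA A L) θ d₀ := by
  obtain ⟨N, G, hG⟩ := hz
  refine mem_of_mul A θ d₀ _ N ?_
  have h1 : iA A L d₀ ^ N * act σ z = eval₂ (iA A L) (act σ θ) G := by
    have h2 := congrArg (act σ) hG
    rw [map_mul, map_pow, act_iA] at h2
    rw [h2]
    have h3 := Polynomial.hom_eval₂ G (iA A L) ((act σ : L ≃ₐ[RatFunc K] L) : L →+* L) θ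
    have h4 : (((act σ : L ≃ₐ[RatFunc K] L) : L →+* L)).comp (iA A L) = iA A L := by
      exact RingHom.ext (act_iA act A σ)
    rw [h4] at h3
    exact h3
  rw [h1]
  exact eval_mem A θ d₀ (h σ) G

/-- The action on `T`. -/
noncomputable def al (h : ∀ σ, act σ θ ∈ TT (iA A L) θ d₀) :
    Γ →* (TT (iA A L) θ d₀ ≃+* TT (iA A L) θ d₀) where
  toFun σ :=
    { toFun := fun z => ⟨act σ z, act_mem h σ z.2⟩
      invFun := fun z => ⟨act σ⁻¹ z, act_mem h σ⁻¹ z.2⟩
      left_inv := fun z => Subtype.ext (by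
        show act σ⁻¹ (act σ z) = z
        rw [← AlgEquiv.mul_apply, ← map_mul, inv_mul_cancel, map_one, AlgEquiv.one_apply])
      right_inv := fun z => Subtype.ext (by
        show act σ (act σ⁻¹ z) = z
        rw [← AlgEquiv.mul_apply, ← map_mul, mul_inv_cancel, map_one, AlgEquiv.one_apply])
      map_mul' := fun z w => Subtype.ext (map_mul (act σ) _ _)
      map_add' := fun z w => Subtype.ext (map_add (act σ) _ _) }
  map_one' := by
    ext z
    show act 1 (z : L) = z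
    rw [map_one, AlgEquiv.one_apply]
  map_mul' σ τ := by
    ext z
    show act (σ * τ) (z : L) = act σ (act τ z)
    rw [map_mul, AlgEquiv.mul_apply]

theorem al_coe (h : ∀ σ, act σ θ ∈ TT (iA A L) θ d₀) (σ : Γ) (z : TT (iA A L) θ d₀) :
    ((al h σ z : TT (iA A L) θ d₀) : L) = act σ z := rfl

end core

theorem core (hTr : TrBStmt) (hAct : ActBStmt) (hReg : RegCStmt)
    {K : Type} [Field K] {Γ : Type} [Group Γ] [Finite Γ] (ε : Γ →* ℤˣ) (e : ℕ)
    (L : Type) [Field L] [Algebra (RatFunc K) L] (act : Γ →* (L ≃ₐ[RatFunc K] L)) (y : L)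
    (hy2 : y ^ 2 = algebraMap (RatFunc K) L (RatFunc.X ^ e))
    (hy : ∀ σ, act σ y = (((ε σ : ℤˣ) : ℤ) : L) * y)
    (θ : L) (A : Subring K) (m₀ : A[X][X]) (hm₀ : m₀.Monic) (hn : m₀.natDegree = Nat.card Γ)
    (hroot : eval₂ (iA A L) θ m₀ = 0)
    (hdiv : ∀ G : A[X][X], eval₂ (iA A L) θ G = 0 → m₀ ∣ G)
    (d₀ : A[X]) (hG : ∀ σ, act σ θ ∈ TT (iA A L) θ d₀)
    (hU : ∀ σ, (act σ θ - θ)⁻¹ ∈ TT (iA A L) θ d₀) (hY : y ∈ TT (iA A L) θ d₀)
    (hne : ∀ σ, σ ≠ 1 → act σ θ ≠ θ)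
    (k' : Type) [Field k'] (φ : A →+* k') (hφd : d₀.map φ ≠ 0)
    (hirr : ∀ (K₁ : Type) [Field K₁] (χ : k' →+* K₁),
      IrrR K₁ (m₀.map (mapRingHom (χ.comp φ)))) :
    HH k' Γ ε e := by
  classical
  -- the target field
  have hirr0 : Irreducible (m₀.map ((algebraMap k'[X] (RatFunc k')).comp (mapRingHom φ))) := by
    have h1 := hirr k' (RingHom.id k')
    rw [RingHom.id_comp] at h1
    unfold IrrR at h1
    rw [Polynomial.map_map] at h1
    exact h1
  set ψ₀ : A[X] →+* RatFunc k' := (algebraMap k'[X] (RatFunc k')).comp (mapRingHom φ) with hψ₀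
  haveI : Fact (Irreducible (m₀.map ψ₀)) := ⟨hirr0⟩
  let L' : Type := AdjoinRoot (m₀.map ψ₀)
  letI : Field L' := AdjoinRoot.instField
  letI : Algebra (RatFunc k') L' := AdjoinRoot.instAlgebra _
  let θ' : L' := AdjoinRoot.root (m₀.map ψ₀)
  have hm' : (m₀.map ψ₀).Monic := hm₀.map ψ₀
  have hm'0 : m₀.map ψ₀ ≠ 0 := hm'.ne_zero
  have hdeg' : (m₀.map ψ₀).natDegree = Nat.card Γ := by
    rw [hm₀.natDegree_map, hn]
  have hrank : Module.finrank (RatFunc k') L' = Nat.card Γ := by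
    have h1 := (AdjoinRoot.powerBasis hm'0).finrank
    rw [AdjoinRoot.powerBasis_dim] at h1
    exact h1.trans hdeg'
  have hroot' : eval₂ ((algebraMap (RatFunc k') L').comp ψ₀) θ' m₀ = 0 := by
    have h1 : eval₂ (AdjoinRoot.of (m₀.map ψ₀)) (AdjoinRoot.root (m₀.map ψ₀)) (m₀.map ψ₀) = 0 :=
      AdjoinRoot.eval₂_root _
    rw [eval₂_map] at h1
    exact h1
  have hψd : ψ₀ d₀ ≠ 0 := by
    intro h0
    apply hφd
    have h1 : algebraMap k'[X] (RatFunc k') (d₀.map φ) = 0 := h0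
    rwa [map_eq_zero_iff _ (RatFunc.algebraMap_injective k')] at h1
  have hψd' : ((algebraMap (RatFunc k') L').comp ψ₀) d₀ ≠ 0 := by
    rw [RingHom.comp_apply]
    intro h0
    exact hψd ((map_eq_zero_iff _ (algebraMap (RatFunc k') L').injective).1 h0)
  -- the transfer
  obtain ⟨ψ, hψ⟩ := hTr A[X] L L' (iA A L) θ d₀ m₀ hdiv ((algebraMap (RatFunc k') L').comp ψ₀) θ'
    hψd' hroot'
  let T := TT (iA A L) θ d₀
  let ι' : A[X] →+* T := (iA A L).codRestrict T (iA_mem A θ d₀)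
  let θT : T := ⟨θ, th_mem A θ d₀⟩
  let yT : T := ⟨y, hY⟩
  have hψι : ∀ r, ψ (ι' r) = algebraMap (RatFunc k') L' (ψ₀ r) := by
    intro r
    have h1 := hψ (ι' r) 0 (C r) (by
      rw [pow_zero, one_mul, eval₂_C]; rfl)
    rw [pow_zero, one_mul, eval₂_C] at h1
    exact h1
  have hψθ : ψ θT = θ' := by
    have h1 := hψ θT 0 X (by rw [pow_zero, one_mul, eval₂_X])
    rw [pow_zero, one_mul, eval₂_X] at h1
    exact h1
  have hcoe : ∀ (w : T) (G : A[X][X]), ((eval₂ ι' w G : T) : L) = eval₂ (iA A L) (w : L) G := by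
    intro w G
    have h1 := Polynomial.hom_eval₂ G ι' T.subtype w
    exact h1
  -- the action
  obtain ⟨act', hbij, hfd, hgal, hact'⟩ := hAct Γ A[X] T (RatFunc k') L' ι' (al hG) θT d₀ m₀ ψ₀ ψ
    (fun σ r => Subtype.ext (act_iA act A σ r))
    (fun z => by
      obtain ⟨N, G, h⟩ := z.2
      refine ⟨N, G, Subtype.ext ?_⟩
      rw [hcoe]
      exact h)
    hm₀ hn
    (Subtype.ext (by rw [hcoe]; exact hroot))
    hψd hirr0 hψι hrank
    (fun σ hσ => by
      have h1 : act σ θ - θ ≠ 0 := sub_ne_zero.2 (hne σ hσ)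
      refine IsUnit.of_mul_eq_one ⟨(act σ θ - θ)⁻¹, hU σ⟩ (Subtype.ext ?_)
      exact mul_inv_cancel₀ h1)
  have hiX : ∀ e : ℕ, iA A L (X ^ e) = algebraMap (RatFunc K) L (RatFunc.X ^ e) := by
    intro e
    show algebraMap (RatFunc K) L (algebraMap K[X] (RatFunc K) (mapRingHom A.subtype (X ^ e))) = _
    rw [map_pow, coe_mapRingHom, map_X, map_pow, RatFunc.algebraMap_X]
  have hψX : ψ₀ (X ^ e) = RatFunc.X ^ e := by
    show algebraMap k'[X] (RatFunc k') (mapRingHom φ (X ^ e)) = _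
    rw [map_pow, coe_mapRingHom, map_X, map_pow, RatFunc.algebraMap_X]
  refine ⟨L', inferInstance, inferInstance, act', ψ yT, hfd, hgal, hbij, ?_, ?_, ?_⟩
  · rw [← map_pow]
    have h1 : yT ^ 2 = ι' (X ^ e) := Subtype.ext (by
      show y ^ 2 = iA A L (X ^ e)
      rw [hiX, hy2])
    rw [h1, hψι, hψX]
  · intro σ
    rw [hact']
    have h1 : al hG σ yT = ((((ε σ : ℤˣ) : ℤ) : T)) * yT := Subtype.ext (by
      rw [al_coe]
      show act σ y = _
      rw [hy]
      push_cast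
      rfl)
    rw [h1, map_mul, map_intCast]
  · have h2 := hReg k' L' θ' (m₀.map (mapRingHom φ)) hfd (hm₀.map _) (by
      rw [hm₀.natDegree_map, hn, hrank]) (by
      rw [eval₂_map]
      exact hroot') (by
      intro K₁ _ χ
      have h3 := hirr K₁ χ
      rw [Polynomial.map_map]
      have h4 : (mapRingHom χ).comp (mapRingHom φ) = mapRingHom (χ.comp φ) := by
        ext <;> simp
      rw [h4]
      exact h3)
    exact h2

end SpBM

theorem bSpB (hIrr : IrrBStmt) (hGen : GenBStmt) (hDen : DenBStmt) (hTr : TrBStmt)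
    (hAct : ActBStmt) (hReg : RegCStmt) : SpBStmt := by
  intro K _ _ Γ _ _ ε e hHH
  classical
  obtain ⟨L, instF, instA, act, y, hfd, hgal, hbij, hy2, hy, hreg⟩ := hHH
  haveI := hfd
  haveI := hgal
  obtain ⟨θ, m, hm, hmdeg, hmroot, hmdiv, hmabs⟩ := hGen K L hfd hreg
  have hcard : Nat.card Γ = Module.finrank (RatFunc K) L := by
    rw [Nat.card_congr (Equiv.ofBijective _ hbij), IsGalois.card_aut_eq_finrank]
  have hpos : 1 ≤ m.natDegree := by
    rw [hmdeg]
    exact Module.finrank_pos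
  obtain ⟨S₁, hS₁, hS₁irr⟩ := hIrr K m hm hpos hmabs
  -- common denominators
  obtain ⟨d, G, hd0, hG⟩ := hDen K L θ m hfd hm hmdeg hmdiv (Γ ⊕ Γ ⊕ Unit)
    (Sum.elim (fun σ => act σ θ) (Sum.elim (fun σ => (act σ θ - θ)⁻¹) (fun _ => y)))
  have hstr0 : ∀ p : K[X], p ≠ 0 → strL K L p ≠ 0 := by
    intro p hp h0
    apply hp
    have h1 : algebraMap (RatFunc K) L (algebraMap K[X] (RatFunc K) p) = 0 := h0
    rw [map_eq_zero_iff _ (algebraMap (RatFunc K) L).injective,
      map_eq_zero_iff _ (RatFunc.algebraMap_injective K)] at h1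
    exact h1
  have hne : ∀ σ, σ ≠ 1 → act σ θ ≠ θ := by
    intro σ hσ h0
    apply hσ
    apply hbij.1
    rw [map_one]
    ext z
    obtain ⟨d', G', hd', hG'⟩ := hDen K L θ m hfd hm hmdeg hmdiv Unit (fun _ => z)
    have h1 := hG' ()
    have h2 := congrArg (act σ) h1
    have h3 : ∀ p : K[X], act σ (strL K L p) = strL K L p := fun p => (act σ).commutes _
    have h4 : act σ (eval₂ (strL K L) θ (G' ())) = eval₂ (strL K L) θ (G' ()) := by
      have h5 := Polynomial.hom_eval₂ (G' ()) (strL K L) ((act σ : L ≃ₐ[RatFunc K] L) : L →+* L) θ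
      have h6 : (((act σ : L ≃ₐ[RatFunc K] L) : L →+* L)).comp (strL K L) = strL K L :=
        RingHom.ext h3
      rw [h6] at h5
      have h7 : ((act σ : L ≃ₐ[RatFunc K] L) : L →+* L) θ = θ := h0
      rw [h7] at h5
      exact h5
    rw [map_mul, h3, h4, ← h1] at h2
    rw [AlgEquiv.one_apply]
    exact mul_left_cancel₀ (hstr0 d' hd') h2
  -- the finite set
  choose F hF using fun j => SpBM.coeffs_fin (G j)
  have hFd : ∃ Sd : Finset K, ∀ j, d.coeff j = 0 ∨ d.coeff j ∈ Sd := by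
    refine ⟨d.support.image fun j => d.coeff j, fun j => ?_⟩
    by_cases h : d.coeff j = 0
    · exact Or.inl h
    · exact Or.inr (Finset.mem_image.2 ⟨j, by rw [mem_support_iff]; exact h, rfl⟩)
  obtain ⟨Sd, hSd⟩ := hFd
  haveI : Fintype Γ := Fintype.ofFinite Γ
  let S : Finset K := S₁ ∪ (Finset.univ.biUnion F ∪ (Sd ∪ {d.leadingCoeff⁻¹}))
  have hS₁S : S₁ ⊆ S := Finset.subset_union_left
  have hmA : ∀ i j, (m.coeff i).coeff j ∈ cl S := fun i j => SpBM.cl_mono hS₁S (hS₁ i j)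
  have hdA : ∀ j, d.coeff j ∈ cl S := by
    intro j
    apply SpBM.mem_cl_of
    rcases hSd j with h | h
    · exact Or.inl h
    · exact Or.inr (Finset.mem_union_right _ (Finset.mem_union_right _ (Finset.mem_union_left _ h)))
  have hGA : ∀ g i j, ((G g).coeff i).coeff j ∈ cl S := by
    intro g i j
    apply SpBM.mem_cl_of
    rcases hF g i j with h | h
    · exact Or.inl h
    · exact Or.inr (Finset.mem_union_right _ (Finset.mem_union_left _
        (Finset.mem_biUnion.2 ⟨g, Finset.mem_univ _, h⟩)))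
  have hlA : d.leadingCoeff⁻¹ ∈ cl S := by
    apply SpBM.mem_cl_of
    exact Or.inr (Finset.mem_union_right _ (Finset.mem_union_right _
      (Finset.mem_union_right _ (Finset.mem_singleton_self _))))
  refine ⟨S, fun k' _ φ => ?_⟩
  obtain ⟨m₀, hm₀⟩ := SpBM.lift2 (cl S) m hmA
  obtain ⟨d₀, hd₀⟩ := SpBM.lift1 (cl S) d hdA
  choose G₀ hG₀ using fun g => SpBM.lift2 (cl S) (G g) (hGA g)
  have hinj : Function.Injective (mapRingHom (cl S).subtype) :=
    Polynomial.map_injective _ Subtype.val_injective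
  have hm₀m : m₀.Monic := by
    apply Polynomial.monic_of_injective hinj
    rw [hm₀]
    exact hm
  have hm₀d : m₀.natDegree = m.natDegree := by
    rw [← hm₀, hm₀m.natDegree_map]
  have hev : ∀ (w : L) (H : (cl S)[X][X]),
      eval₂ (SpBM.iA (cl S) L) w H = eval₂ (strL K L) w (H.map (mapRingHom (cl S).subtype)) := by
    intro w H
    rw [eval₂_map]
  have hdv : ∀ H : (cl S)[X][X], eval₂ (SpBM.iA (cl S) L) θ H = 0 → m₀ ∣ H := by
    intro H hH
    rw [← Polynomial.modByMonic_eq_zero_iff_dvd hm₀m]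
    have hr : eval₂ (SpBM.iA (cl S) L) θ (H %ₘ m₀) = 0 := by
      have h1 := Polynomial.modByMonic_add_div H m₀
      rw [← h1, eval₂_add, eval₂_mul, hev θ m₀, hm₀, hmroot, zero_mul, add_zero] at hH
      exact hH
    rw [hev] at hr
    have h2 := hmdiv _ hr
    apply Polynomial.map_injective _ hinj
    rw [Polynomial.map_zero]
    by_contra h3
    have h4 := Polynomial.degree_le_of_dvd h2 h3
    have h5 := Polynomial.degree_modByMonic_lt H hm₀m
    have h6 : ((H %ₘ m₀).map (mapRingHom (cl S).subtype)).degree ≤ (H %ₘ m₀).degree :=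
      Polynomial.degree_map_le
    have h7 : m.degree = m₀.degree := by
      rw [← hm₀, hm₀m.degree_map]
    rw [h7] at h4
    exact absurd (lt_of_le_of_lt (h4.trans h6) h5) (lt_irrefl _)
  have hid : SpBM.iA (cl S) L d₀ = strL K L d := by
    show strL K L (mapRingHom (cl S).subtype d₀) = _
    rw [coe_mapRingHom, hd₀]
  have hTT : ∀ (g : Γ ⊕ Γ ⊕ Unit) (z : L), strL K L d * z = eval₂ (strL K L) θ (G g) →
      z ∈ TT (SpBM.iA (cl S) L) θ d₀ := by
    intro g z h
    apply SpBM.mem_of_one (cl S) θ d₀ z (G₀ g)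
    rw [hid, hev, hG₀, h]
  refine SpBM.core hTr hAct hReg ε e L act y hy2 hy θ (cl S) m₀ hm₀m (by rw [hm₀d, hmdeg, hcard])
    (by rw [hev, hm₀, hmroot]) hdv d₀ (fun σ => hTT (Sum.inl σ) _ (hG (Sum.inl σ)))
    (fun σ => hTT (Sum.inr (Sum.inl σ)) _ (hG (Sum.inr (Sum.inl σ))))
    (hTT (Sum.inr (Sum.inr ())) _ (hG (Sum.inr (Sum.inr ())))) hne k' φ ?_ ?_
  · intro h0
    have h1 : φ (d₀.coeff d.natDegree) = 0 := by
      have h2 := congrArg (fun p => Polynomial.coeff p d.natDegree) h0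
      simpa [coeff_map] using h2
    have h3 : ((d₀.coeff d.natDegree : cl S) : K) = d.leadingCoeff := by
      have h4 := congrArg (fun p => Polynomial.coeff p d.natDegree) hd₀
      simpa [coeff_map] using h4
    have h5 : d₀.coeff d.natDegree * (⟨d.leadingCoeff⁻¹, hlA⟩ : cl S) = 1 := by
      apply Subtype.ext
      show ((d₀.coeff d.natDegree : cl S) : K) * d.leadingCoeff⁻¹ = 1
      rw [h3]
      exact mul_inv_cancel₀ (leadingCoeff_ne_zero.2 hd0)
    have h6 := congrArg φ h5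
    rw [map_mul, h1, zero_mul, map_one] at h6
    exact zero_ne_one h6
  · intro K₁ _ χ
    exact hS₁irr S hS₁S K₁ (χ.comp φ) m₀ hm₀

end MP7U
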