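import Pool.Agent.Lib.MP_7f581e_U.B.Spec1

/-!
# C41 (MP_7f581e_nt), Block B, TrB: the transfer homomorphism
-/

set_option autoImplicit false

namespace MP7U

open Polynomial

theorem bTrB : TrBStmt := by
  intro R L L' _ _ _ ι θ d m hm ψ₀ θ' hd hθ'
  have wd : ∀ (z : L) (N M : ℕ) (G H : R[X]), ι d ^ N * z = eval₂ ι θ G →
      ι d ^ M * z = eval₂ ι θ H → ψ₀ d ^ M * eval₂ ψ₀ θ' G = ψ₀ d ^ N * eval₂ ψ₀ θ' H := by
    intro z N M G H h1 h2
    have h3 : eval₂ ι θ (C (d ^ M) * G - C (d ^ N) * H) = 0 := by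
      rw [eval₂_sub, eval₂_mul, eval₂_mul, eval₂_C, eval₂_C, ← h1, ← h2, map_pow, map_pow]
      ring
    obtain ⟨Q, hQ⟩ := hm _ h3
    have h4 : eval₂ ψ₀ θ' (C (d ^ M) * G - C (d ^ N) * H) = 0 := by
      rw [hQ, eval₂_mul, hθ', zero_mul]
    rw [eval₂_sub, eval₂_mul, eval₂_mul, eval₂_C, eval₂_C, map_pow, map_pow] at h4
    exact sub_eq_zero.1 h4
  choose N G hNG using fun z : TT ι θ d => mem_TT.1 z.2
  set f : TT ι θ d → L' := fun z => (ψ₀ d ^ N z)⁻¹ * eval₂ ψ₀ θ' (G z) with hf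
  have hpow : ∀ n : ℕ, ψ₀ d ^ n ≠ 0 := fun n => pow_ne_zero n hd
  have key : ∀ (z : TT ι θ d) (M : ℕ) (H : R[X]), ι d ^ M * (z : L) = eval₂ ι θ H →
      ψ₀ d ^ M * f z = eval₂ ψ₀ θ' H := by
    intro z M H h
    have h1 := wd z (N z) M (G z) H (hNG z) h
    change ψ₀ d ^ M * ((ψ₀ d ^ N z)⁻¹ * eval₂ ψ₀ θ' (G z)) = _
    rw [mul_left_comm, h1, inv_mul_cancel_left₀ (hpow _)]
  refine ⟨{ toFun := f, map_one' := ?_, map_mul' := ?_, map_zero' := ?_, map_add' := ?_ }, key⟩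
  · have := key 1 0 1 (by simp)
    simpa using this
  · intro z w
    have h1 := key (z * w) (N z + N w) (G z * G w) (by
      rw [eval₂_mul, ← hNG z, ← hNG w, pow_add, Subring.coe_mul]; ring)
    have h2 := key z (N z) (G z) (hNG z)
    have h3 := key w (N w) (G w) (hNG w)
    rw [eval₂_mul, ← h2, ← h3, pow_add] at h1
    apply mul_left_cancel₀ (mul_ne_zero (hpow (N z)) (hpow (N w)))
    rw [h1]; ring
  · have := key 0 0 0 (by simp)
    simpa using this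
  · intro z w
    have h1 := key (z + w) (N z + N w) (C (d ^ N w) * G z + C (d ^ N z) * G w) (by
      rw [eval₂_add, eval₂_mul, eval₂_mul, eval₂_C, eval₂_C, ← hNG z, ← hNG w, map_pow, map_pow,
        pow_add, Subring.coe_add]; ring)
    have h2 := key z (N z) (G z) (hNG z)
    have h3 := key w (N w) (G w) (hNG w)
    rw [eval₂_add, eval₂_mul, eval₂_mul, eval₂_C, eval₂_C, ← h2, ← h3, map_pow, map_pow,
      pow_add] at h1
    apply mul_left_cancel₀ (mul_ne_zero (hpow (N z)) (hpow (N w)))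
    rw [h1]; ring

end MP7U
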