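import Pool.Agent.Lib.MP_7f581e_U.B.GauB
import Pool.Agent.Lib.MP_7f581e_U.B.LimB
import Pool.Agent.Lib.MP_7f581e_U.B.IrrB
import Pool.Agent.Lib.MP_7f581e_U.B.GenB
import Pool.Agent.Lib.MP_7f581e_U.B.DenB
import Pool.Agent.Lib.MP_7f581e_U.B.TrB
import Pool.Agent.Lib.MP_7f581e_U.B.ActB
import Pool.Agent.Lib.MP_7f581e_U.B.RegC
import Pool.Agent.Lib.MP_7f581e_U.B.SpB

/-!
# C41 (MP_7f581e_nt), Block B, assembly
-/

set_option autoImplicit false

namespace MP7U

theorem xGauB : GauBStmt := bGauB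

theorem xLimB : LimBStmt := bLimB

theorem xIrrB : IrrBStmt := bIrrB xGauB xLimB

theorem xGenB : GenBStmt := bGenB

theorem xDenB : DenBStmt := bDenB

theorem xTrB : TrBStmt := bTrB

theorem xActB : ActBStmt := bActB

theorem xRegC : RegCStmt := bRegC

theorem xSpB : SpBStmt := bSpB xIrrB xGenB xDenB xTrB xActB xRegC

end MP7U
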