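import Pool.Agent.Lib.MP_7f581e_U.A.Defs
import Pool.Agent.Lib.MP_7f581e_ntK.Emb

/-!
# C41 (MP_7f581e_nt), Blocks B, C, D, F: specialization, PAC fields, definitions
-/

set_option autoImplicit false

namespace MP7U

open Polynomial

/-- The subring generated by a finite set. -/
abbrev cl {K : Type} [Field K] (S : Finset K) : Subring K := Subring.closure (S : Set K)

/-- `f` is irreducible over `k(X)`. -/
def IrrR (k : Type) [Field k] (f : k[X][X]) : Prop :=
  Irreducible (f.map (algebraMap k[X] (RatFunc k)))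

/-- `f` is irreducible over `K₁(X)` for every extension field `K₁` of `K`. -/
def AbsIrr (K : Type) [Field K] (f : K[X][X]) : Prop :=
  ∀ (K₁ : Type) [Field K₁] (φ : K →+* K₁), IrrR K₁ (f.map (mapRingHom φ))

/-- `k` is pseudo algebraically closed: every absolutely irreducible plane curve `f(X, Y) = 0`, `f` monic in
`Y`, has a point in `k²` outside the zeros of a given nonzero `g(X)`. -/
def PAC (k : Type) [Field k] : Prop :=
  ∀ f : k[X][X], f.Monic → 1 ≤ f.natDegree → AbsIrr k f → ∀ g : k[X], g ≠ 0 →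
    ∃ a b : k, g.eval a ≠ 0 ∧ (f.eval (C b)).eval a = 0

/-- The structure map `k[X] → L` of an extension of `k(X)`. -/
noncomputable abbrev strL (k L : Type) [Field k] [Field L] [Algebra (RatFunc k) L] : k[X] →+* L :=
  (algebraMap (RatFunc k) L).comp (algebraMap k[X] (RatFunc k))

/-- `k` is algebraically closed in `L` (the condition in `HH`). -/
def RegL (k L : Type) [Field k] [Field L] [Algebra (RatFunc k) L] : Prop :=
  ∀ x : L, (∃ f : k[X], f ≠ 0 ∧
    eval₂ ((algebraMap (RatFunc k) L).comp (algebraMap k (RatFunc k))) x f = 0) →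
      ∃ c : k, algebraMap (RatFunc k) L (algebraMap k (RatFunc k) c) = x

/-- The elements `G(θ) / d^N` of `L`, as a subring of `L`. -/
def TT {R L : Type} [CommRing R] [Field L] (ι : R →+* L) (θ : L) (d : R) : Subring L where
  carrier := {z | ∃ (N : ℕ) (G : R[X]), ι d ^ N * z = eval₂ ι θ G}
  one_mem' := ⟨0, 1, by simp⟩
  zero_mem' := ⟨0, 0, by simp⟩
  neg_mem' := by
    rintro z ⟨N, G, h⟩
    exact ⟨N, -G, by rw [eval₂_neg, ← h, mul_neg]⟩
  mul_mem' := by
    rintro z w ⟨N, G, h⟩ ⟨M, H, h'⟩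
    refine ⟨N + M, G * H, ?_⟩
    rw [eval₂_mul, ← h, ← h', pow_add]
    ring
  add_mem' := by
    rintro z w ⟨N, G, h⟩ ⟨M, H, h'⟩
    refine ⟨N + M, C (d ^ M) * G + C (d ^ N) * H, ?_⟩
    rw [eval₂_add, eval₂_mul, eval₂_mul, eval₂_C, eval₂_C, ← h, ← h', map_pow, map_pow, pow_add]
    ring

theorem mem_TT {R L : Type} [CommRing R] [Field L] {ι : R →+* L} {θ : L} {d : R} {z : L} :
    z ∈ TT ι θ d ↔ ∃ (N : ℕ) (G : R[X]), ι d ^ N * z = eval₂ ι θ G := Iff.rfl

end MP7U
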