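import Pool.Agent.Lib.MP_7f581e_U.B.Spec1

/-!
# C41 (MP_7f581e_nt), Block B: factors of bounded degree
-/

set_option autoImplicit false

namespace MP7U

open Polynomial

namespace GauBAux

theorem coeff_swap {k : Type} [CommRing k] (p : k[X][X]) (i j : ℕ) :
    ((Bivariate.swap p).coeff j).coeff i = (p.coeff i).coeff j := by
  induction p using Polynomial.induction_on' with
  | add p q hp hq => rw [map_add, coeff_add, coeff_add, hp, hq, coeff_add, coeff_add]
  | monomial n f =>
    induction f using Polynomial.induction_on' with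
    | add p q hp hq => rw [map_add, map_add, coeff_add, coeff_add, hp, hq, coeff_add, coeff_add]
    | monomial m r =>
      rw [Bivariate.swap_monomial_monomial, coeff_monomial, coeff_monomial]
      by_cases h1 : n = i <;> by_cases h2 : m = j <;> simp [h1, h2, coeff_monomial]

theorem natDegree_swap_le_iff {k : Type} [CommRing k] (p : k[X][X]) (D : ℕ) :
    (Bivariate.swap p).natDegree ≤ D ↔ ∀ i, (p.coeff i).natDegree ≤ D := by
  simp_rw [natDegree_le_iff_coeff_eq_zero]
  constructor
  · intro h i N hN
    rw [← coeff_swap, h N hN, coeff_zero]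
  · intro h N hN
    ext i
    rw [coeff_swap, h i N hN, coeff_zero]

theorem bound_left {k : Type} [Field k] {f g h : k[X][X]} {D : ℕ}
    (hD : ∀ i, (f.coeff i).natDegree ≤ D) (hf : f ≠ 0) (hfgh : f = g * h) :
    ∀ i, (g.coeff i).natDegree ≤ D := by
  rw [← natDegree_swap_le_iff] at hD ⊢
  have hg : g ≠ 0 := by
    rintro rfl
    exact hf (by rw [hfgh, zero_mul])
  have hh : h ≠ 0 := by
    rintro rfl
    exact hf (by rw [hfgh, mul_zero])
  have hg' : Bivariate.swap g ≠ 0 := by
    simpa using hg
  have hh' : Bivariate.swap h ≠ 0 := by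
    simpa using hh
  rw [hfgh, map_mul, natDegree_mul hg' hh'] at hD
  omega

end GauBAux

open GauBAux in
theorem bGauB : GauBStmt := by
  intro k _ f n D hf hn h1 hD hirr
  have hirr' : ¬ Irreducible f := fun h =>
    hirr ((hf.irreducible_iff_irreducible_map_fraction_map (K := RatFunc k)).mp h)
  rw [hf.irreducible_iff_natDegree] at hirr'
  have hf1 : f ≠ 1 := by
    rintro rfl
    rw [natDegree_one] at hn
    omega
  push Not at hirr'
  obtain ⟨g, h, hg, hh, hgh, hg0, hh0⟩ := hirr' hf1
  have hdeg : g.natDegree + h.natDegree = n := by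
    rw [← hn, ← hgh, hg.natDegree_mul hh]
  refine ⟨g.natDegree, g, h, by omega, by omega, hg, hh, rfl, by omega,
    bound_left hD hf.ne_zero hgh.symm, bound_left hD hf.ne_zero (f := f) (h := g) ?_, hgh.symm⟩
  rw [mul_comm, hgh]

end MP7U
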