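import Pool.Agent.Lib.MP_7f581e_U.B.Defs

/-!
# C41 (MP_7f581e_nt), Block B: specialization of Galois extensions of `K(X)`

One Lean task for each `def XStmt : Prop`: file `MP_7f581e_U/B/X.lean`, import this file,
`namespace MP7U`, `theorem bX : XStmt` (statements which are used are hypotheses, in the order of
the docstring: `theorem bX (h1 : AStmt) (h2 : BStmt) : XStmt`).  `strL k L : k[X] →+* L` is the structure map.
-/

set_option autoImplicit false

namespace MP7U

open Polynomial

/-- **GauB.** (120 lines)  Factors of bounded degree.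

*Proof.*  `f` is monic; by Gauss' lemma (`Monic.irreducible_iff_irreducible_map_fraction_map`) `f` is not irreducible in `k[X][Y]`, so by
`Monic.irreducible_iff_natDegree` (`f ≠ 1` because `n ≥ 1`) `f = g h` with monic `g, h` of positive degree.  Degrees in `Y`: `natDegree_mul`.  Degrees in `X`: exchange the
variables (`Polynomial.Bivariate.swap`; `swap f = swap g * swap h` in the domain `k[Y][X]`, and `natDegree (swap f) ≤ D` iff all coefficients of `f` have degree `≤ D`;
the natDegree of a product is the sum), so the coefficients of `g` and `h` have degree `≤ D`. -/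
def GauBStmt : Prop :=
  ∀ (k : Type) [Field k] (f : k[X][X]) (n D : ℕ), f.Monic → f.natDegree = n → 1 ≤ n →
    (∀ i, (f.coeff i).natDegree ≤ D) → ¬ IrrR k f →
    ∃ (r : ℕ) (g h : k[X][X]), 1 ≤ r ∧ r < n ∧ g.Monic ∧ h.Monic ∧ g.natDegree = r ∧
      h.natDegree = n - r ∧ (∀ i, (g.coeff i).natDegree ≤ D) ∧ (∀ i, (h.coeff i).natDegree ≤ D) ∧
      f = g * h

/-- **LimB.** (100 lines)  The limit of homomorphisms from the finitely generated subrings.

*Proof.*  `Π = ∀ S, kk S` and `I = {x | ∃ S₀, ∀ S ⊇ S₀, x S = 0}`, an ideal (unions of finite sets), proper (`1 ∉ I`).  Let `M ⊇ I` be a maximal ideal, `ks = Π ⧸ M` (a field,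
`Ideal.Quotient.field`), `π` the quotient map.  `Φ x = π (S ↦ if h : x ∈ cl S then φ S ⟨x, h⟩ else 0)`: it is additive and multiplicative because the
coordinates agree for all `S ⊇ S₀` where `S₀` is such that `x, y ∈ cl S₀` (`S₀ = {x, y}`; `cl` is monotone). -/
def LimBStmt : Prop :=
  ∀ (K : Type) [Field K] (kk : Finset K → Type) [∀ S, Field (kk S)]
    (φ : ∀ S : Finset K, cl S →+* kk S),
    ∃ (ks : Type) (_ : Field ks) (Φ : K →+* ks) (π : (∀ S, kk S) →+* ks),
      (∀ x y : ∀ S, kk S, (∃ S₀, ∀ S, S₀ ⊆ S → x S = y S) → π x = π y) ∧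
      ∀ (x : K) (y : ∀ S, kk S), (∃ S₀, ∀ S, S₀ ⊆ S → ∀ h : x ∈ cl S, y S = φ S ⟨x, h⟩) →
        Φ x = π y

/-- **IrrB.** (250 lines)  Uses GauB, LimB.  Absolute irreducibility is preserved by specialization.

*Proof.*  Let `Sf` be the finite set of all coefficients of the coefficients of `f`, `D` a bound for the degrees of the coefficients, `n = natDegree f`.  Suppose that there is no `S`.
Then for every `S ⊇ Sf` there are `S' ⊇ S`, `k'`, `φ`, `f₀` such that `f₀^φ` is not irreducible over `k'(X)`; by GauB `f₀^φ = g h` with `natDegree g = r_S`, `1 ≤ r_S < n`.  For some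
`r` the type `r` is possible for every `S` (otherwise for each `r` there is `S_r` such that no `S' ⊇ S_r` has type `r`, take the union).  So (restricting the
homomorphisms from `cl S'` to `cl S`, and replacing `S` by `S ∪ Sf`) there are for every `S` a field `kk S`, a homomorphism `φ S : cl S → kk S` and a factorization
`f_S = g_S h_S` of type `r`, with coefficients of degree `≤ D`, where `f_S` is the image of `f`, i.e. `coeff j (coeff i f_S) = φ' S (coeff j (coeff i f))`, where `φ' S : cl (S ∪ Sf) → kk S`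
(use `kk S`, `φ' S` for `S ∪ Sf`, and `φ S` its restriction).  `Π = ∀ S, kk S`; let `G = ∑_{i ≤ r, j ≤ D} monomial i (monomial j (S ↦ coeff j (coeff i g_S))) ∈ Π[X][Y]`, `H` and `F` in the same way from
`h_S`, `f_S`.  The coordinates of `G H` and `F` are `g_S h_S = f_S`, so `F = G H` (`Pi.evalRingHom`, ext on coefficients).  Apply LimB: `π(F) = Φ(f)` (coefficientwise), so
`f^Φ = G^π H^π`, and `G^π`, `H^π` are monic of degrees `r`, `n - r`, both positive; over `ks(X)` they are not units, so `f^Φ` is not irreducible over `ks(X)`, a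
contradiction to `AbsIrr`. -/
def IrrBStmt : Prop :=
  ∀ (K : Type) [Field K] (f : K[X][X]), f.Monic → 1 ≤ f.natDegree → AbsIrr K f →
    ∃ S : Finset K, (∀ i j, (f.coeff i).coeff j ∈ cl S) ∧
      ∀ S' : Finset K, S ⊆ S' → ∀ (k' : Type) [Field k'] (φ : cl S' →+* k') (f₀ : (cl S')[X][X]),
        f₀.map (mapRingHom (cl S').subtype) = f → IrrR k' (f₀.map (mapRingHom φ))

/-- **GenB.** (80 lines)  A primitive element with absolutely irreducible equation.

*Proof.*  As in the proof of `MP7fK.exists_gen` (`Pool/Agent/Lib/MP_7f581e_ntK/Emb.lean`): give `L` the algebra structures over `k` and `k[X]` through `RatFunc k`; `MP7fR.exists_integral_powerBasis`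
(`R = k[X]`, `F = RatFunc k`; `L / F` is separable because the characteristic is `0`) gives a power basis `pb` with `pb.gen` integral over `k[X]`; `θ = pb.gen`, `m = minpoly k[X] θ`.
`m.map (algebraMap k[X] F) = minpoly F θ` (`minpoly.isIntegrallyClosed_eq_field_fractions'`), so `natDegree m = finrank`.  For `φ : k → K₁` use `φ.toAlgebra` and
`MP7fR.irreducible_map` (needs `PerfectField k`, characteristic `0`) and Gauss (`Monic.irreducible_iff_irreducible_map_fraction_map`), as in `exists_gen`.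
Divisibility: `eval₂ (strL k L) θ G = 0` says `aeval θ (G.map ..) = 0`, so `minpoly F θ ∣ G.map _`; or `minpoly.isIntegrallyClosed_dvd`. -/
def GenBStmt : Prop :=
  ∀ (k : Type) [Field k] [CharZero k] (L : Type) [Field L] [Algebra (RatFunc k) L],
    FiniteDimensional (RatFunc k) L → RegL k L →
    ∃ (θ : L) (m : k[X][X]), m.Monic ∧ m.natDegree = Module.finrank (RatFunc k) L ∧
      eval₂ (strL k L) θ m = 0 ∧ (∀ G : k[X][X], eval₂ (strL k L) θ G = 0 → m ∣ G) ∧ AbsIrr k m

/-- **DenB.** (80 lines)  Common denominators.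

*Proof.*  The powers `θ^i`, `i < n`, are linearly independent over `k(X)`: a relation, multiplied by a common denominator, is `G(θ) = 0` with `G ≠ 0` of degree `< n` (`Polynomial` over `k[X]`), but `m ∣ G`
with `m` monic of degree `n`.  `n = finrank`, so they are a basis of `L` over `k(X)`.  Write `z i = ∑ r_{i,j} θ^j`, `r_{i,j} ∈ k(X)`, and let `d` be a common
denominator (`IsLocalization.exist_integer_multiples_of_finset`). -/
def DenBStmt : Prop :=
  ∀ (k : Type) [Field k] (L : Type) [Field L] [Algebra (RatFunc k) L] (θ : L) (m : k[X][X]),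
    FiniteDimensional (RatFunc k) L → m.Monic → m.natDegree = Module.finrank (RatFunc k) L →
    (∀ G : k[X][X], eval₂ (strL k L) θ G = 0 → m ∣ G) →
    ∀ (J : Type) [Finite J] (z : J → L), ∃ (d : k[X]) (G : J → k[X][X]), d ≠ 0 ∧
      ∀ i, strL k L d * z i = eval₂ (strL k L) θ (G i)

/-- **TrB.** (60 lines)  The transfer homomorphism.

*Proof.*  For `z ∈ TT ι θ d` choose `(N, G)` and put `ψ z = ψ₀(d)^(-N) G^(ψ₀)(θ')`.  It does not depend on the choice: `ι(d)^N z = G(θ)`, `ι(d)^M z = H(θ)` give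
`(d^M G - d^N H)(θ) = 0`, so it is divisible by `m`, so `ψ₀(d)^M G^(ψ₀)(θ') = ψ₀(d)^N H^(ψ₀)(θ')`.  Sums and products: as in the definition of `TT`. -/
def TrBStmt : Prop :=
  ∀ (R L L' : Type) [CommRing R] [Field L] [Field L'] (ι : R →+* L) (θ : L) (d : R) (m : R[X]),
    (∀ G : R[X], eval₂ ι θ G = 0 → m ∣ G) → ∀ (ψ₀ : R →+* L') (θ' : L'), ψ₀ d ≠ 0 →
    eval₂ ψ₀ θ' m = 0 →
    ∃ ψ : TT ι θ d →+* L', ∀ (z : TT ι θ d) (N : ℕ) (G : R[X]), ι d ^ N * (z : L) = eval₂ ι θ G →
      ψ₀ d ^ N * ψ z = eval₂ ψ₀ θ' G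

/-- **ActB.** (150 lines)  The action on the specialized field.

*Proof.*  `θ' = ψ θ` is a root of the irreducible monic polynomial `m' = m.map ψ₀` of degree `n = card Γ = [L' : F']`, so `L' = F'(θ')` with power basis (`minpoly F' θ' = m'`).  For `σ ∈ Γ` the element
`ψ (α σ θ)` is a root of `m'`: `m(α σ θ) = α σ (m(θ)) = 0` in `T` (coefficients from `R` are fixed), apply `ψ`.  So there is an `F'`-algebra homomorphism `a σ : L' → L'` with
`θ' ↦ ψ (α σ θ)` (`PowerBasis.lift`).  `a σ (ψ z) = ψ (α σ z)` for `z ∈ T`: `d^N z = G(θ)` gives `ψ₀(d)^N a σ (ψ z) = G^(ψ₀)(ψ (α σ θ)) = ψ (G(α σ θ)) = ψ (α σ (d^N z)) = ψ₀(d)^N ψ (α σ z)`.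
So `a (σ τ) θ' = ψ (α σ (α τ θ)) = a σ (a τ θ')`, and `a (σ τ) = a σ ∘ a τ`, `a 1 = id`: this is a homomorphism `Γ → L' ≃ₐ[F'] L'`.  It is injective: `a σ = 1` gives
`ψ (α σ θ - θ) = 0`, but `α σ θ - θ` is a unit of `T` for `σ ≠ 1`.  `card Γ ≤ card Aut ≤ finrank = card Γ`, so it is bijective and `L' / F'` is Galois
(`IsGalois.of_card_aut_eq_finrank`). -/
def ActBStmt : Prop :=
  ∀ (Γ : Type) [Group Γ] [Finite Γ] (R T F' L' : Type) [CommRing R] [CommRing T] [Field F']
    [Field L'] [Algebra F' L'] (ι : R →+* T) (α : Γ →* (T ≃+* T)) (θ : T) (d : R) (m : R[X])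
    (ψ₀ : R →+* F') (ψ : T →+* L'), (∀ σ r, α σ (ι r) = ι r) →
    (∀ z : T, ∃ (N : ℕ) (G : R[X]), ι d ^ N * z = eval₂ ι θ G) → m.Monic →
    m.natDegree = Nat.card Γ → eval₂ ι θ m = 0 → ψ₀ d ≠ 0 → Irreducible (m.map ψ₀) →
    (∀ r, ψ (ι r) = algebraMap F' L' (ψ₀ r)) → Module.finrank F' L' = Nat.card Γ →
    (∀ σ, σ ≠ 1 → IsUnit (α σ θ - θ)) →
    ∃ act : Γ →* (L' ≃ₐ[F'] L'), Function.Bijective act ∧ FiniteDimensional F' L' ∧
      IsGalois F' L' ∧ ∀ σ z, act σ (ψ z) = ψ (α σ z)

/-- **RegC.** (150 lines)  Absolute irreducibility implies regularity.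

*Proof.*  Let `x ∈ L` be a root of `f ≠ 0` in `k[X]`.  `κ₀ = algebraMap ∘ algebraMap : k → L`, `k₁ = k(x) ⊆ L` the subfield generated by `κ₀(k)` and `x` (finite over `k`; e.g. `IntermediateField.adjoin` for
the `k`-algebra structure `κ₀`).  The image `X'` of `X` in `L` is transcendental over `k`, so over the algebraic extension `k₁`; so there is `j : RatFunc k₁ → L`, `X ↦ X'`, identity on
`k₁`.  `m.map (k → k₁)` is irreducible over `k₁(X)` (`AbsIrr`), and it has the root `θ`, so `[L : k₁(X)] ≥ n = natDegree m` (`L` as an algebra over `RatFunc k₁` by `j`; `minpoly` of `θ`).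
The image of `RatFunc k` in `L` is contained in `j (RatFunc k₁)`, and `[L : k(X)] = n`; by the tower formula `[k₁(X) : k(X)] = 1`, so `x = algebraMap z` with `z ∈ RatFunc k`.
`z` is algebraic over `k`, so constant: write `z = P / Q` in lowest terms; it is integral over `k ⊆ k[X]`, so it is a polynomial (`k[X]` is integrally closed), and a polynomial of
positive degree is transcendental (`transcendental` lemmas, or compare degrees).  (If `finrank` arguments with `j` are inconvenient: use a `k(X)`-basis of `L` of the form `θ^i`, and note that `x = ∑ r_i θ^i`, `r_i ∈ k(X)`, is a relation of degree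
`< n` for `θ` over `k₁(X)`; so `r_i = 0` for `i ≥ 1` and `x = r_0`, by irreducibility over `k₁(X)`.  This is the shortest way.) -/
def RegCStmt : Prop :=
  ∀ (k : Type) [Field k] (L : Type) [Field L] [Algebra (RatFunc k) L] (θ : L) (m : k[X][X]),
    FiniteDimensional (RatFunc k) L → m.Monic → m.natDegree = Module.finrank (RatFunc k) L →
    eval₂ (strL k L) θ m = 0 → AbsIrr k m → RegL k L

/-- **SpB.** (250 lines)  Uses IrrB, GenB, DenB, TrB, ActB, RegC (in this order).  Specialization.

*Proof.*  `L`, `act`, `y` from `HH K`, `n = card Γ = finrank`; `θ`, `m` from GenB.  DenB for the finite family of the elements `act σ θ` (`σ ∈ Γ`), `(act σ θ - θ)⁻¹` (`σ ≠ 1`; `act σ θ ≠ θ` because `θ`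
generates `L`: DenB shows that every element of `L` is a quotient `G(θ)/d`) and `y`: `d ≠ 0`, polynomials `G_σ, U_σ, Y ∈ K[X][Y]`.  `S` is the union of the set from IrrB, all coefficients of
`m, d, G_σ, U_σ, Y` and the inverse of the leading coefficient of `d`.  `A = cl S`, `R = A[X]`, `ι : R → K[X] → L` (injective), `m₀, d₀, ... ` the lifts to `A` (coefficients in the subring: `Polynomial.toSubring` or
`lifts`).  If `eval₂ ι θ G = 0`, `G ∈ R[Y]`, then `m₀ ∣ G`: divide by the monic `m₀` in `R[Y]` (`modByMonic`); the remainder has degree `< n` and its image vanishes at `θ`, so it is divisible by `m`, so it is `0`.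
`T = TT ι θ d₀` contains `ι R`, `θ`, `act σ θ`, `(act σ θ - θ)⁻¹`, `y`, and `z ∈ T` if `ι(d₀)^N z ∈ T`.  `act σ` maps `T` to `T`: `d^N z = G(θ)` gives `d^N act σ z = G(act σ θ) ∈ T`.  So `α : Γ → (T ≃+* T)`.
Let `φ : A → k'`.  `F' = RatFunc k'`, `ψ₀ : R → k'[X] → F'`; `ψ₀ d₀ ≠ 0` because `φ` of the leading coefficient of `d₀` is invertible (also the degree does not drop).  `m' = m₀.map ψ₀` is
irreducible (IrrB), `L' = AdjoinRoot m'`, `finrank = n`.  TrB (with `ψ₀' = algebraMap F' L' ∘ ψ₀`, `θ' = root m'`) gives `ψ`; `ψ (ι r) = algebraMap (ψ₀ r)` and `ψ θ = θ'`.  ActB gives `act'`.  `y' = ψ y`: `y'^2 = ψ (ι X^e) = X^e`,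
`act' σ y' = ψ (act σ y) = ε(σ) y'`.  Regularity: RegC for `k'`, `L'`, `θ'` and `m₀.map (mapRingHom φ)`, which is `AbsIrr` by IrrB applied to the compositions of `φ` with `k' → K₁`. -/
def SpBStmt : Prop :=
  ∀ (K : Type) [Field K] [CharZero K] (Γ : Type) [Group Γ] [Finite Γ] (ε : Γ →* ℤˣ) (e : ℕ),
    HH K Γ ε e → ∃ S : Finset K, ∀ (k' : Type) [Field k'] (_ : cl S →+* k'), HH k' Γ ε e

end MP7U
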